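import Pool.Agent.SCT.StmtsP

/-! # Squad SCT, row HYD: a point of a hyperplane over the ground field. -/

set_option autoImplicit false

namespace Pool.Agent.SCT.H42

open MvPolynomial

/-- the transcendence degree of a field with few generators -/
theorem trdeg_adjoin_le' {k Ω : Type} [Field k] [Field Ω] [Algebra k Ω] (S : Set Ω) (d : ℕ)
    (hS : Cardinal.mk S ≤ (d : Cardinal)) :
    Algebra.trdeg k (IntermediateField.adjoin k S) ≤ (d : Cardinal) := by
  set s : Set (IntermediateField.adjoin k S) := (fun x => (x : Ω)) ⁻¹' S with hs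
  have h1 : IntermediateField.adjoin k s = ⊤ := by
    apply IntermediateField.map_injective (IntermediateField.adjoin k S).val
    rw [IntermediateField.adjoin_map, ← AlgHom.fieldRange_eq_map,
      IntermediateField.fieldRange_val]
    congr 1
    ext z
    constructor
    · rintro ⟨x, hx, rfl⟩
      exact hx
    · intro hz
      exact ⟨⟨z, IntermediateField.subset_adjoin _ _ hz⟩, hz, rfl⟩
  have h2 : Algebra.IsAlgebraic (Algebra.adjoin k s) (IntermediateField.adjoin k S) := by
    rw [← IntermediateField.isAlgebraic_adjoin_iff_top, h1, Algebra.isAlgebraic_iff_isIntegral]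
    exact Algebra.isIntegral_of_surjective IntermediateField.topEquiv.surjective
  have h3 : Algebra.trdeg k (IntermediateField.adjoin k S) ≤ Cardinal.mk s :=
    Algebra.IsAlgebraic.trdeg_le_cardinalMk k s
  refine h3.trans (le_trans ?_ hS)
  refine Cardinal.mk_le_of_injective (f := fun x : s => (⟨(x.1 : Ω), x.2⟩ : S)) ?_
  intro x y h
  have h4 : ((x.1 : IntermediateField.adjoin k S) : Ω) = y.1 := congrArg (fun z : S => (z : Ω)) h
  exact Subtype.ext (Subtype.ext h4)

theorem trdeg_mono' {k Ω : Type} [Field k] [Field Ω] [Algebra k Ω] {C D : IntermediateField k Ω}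
    (h : C ≤ D) {d : ℕ} (hd : Algebra.trdeg k D ≤ (d : Cardinal)) :
    Algebra.trdeg k C ≤ (d : Cardinal) :=
  (trdeg_le_of_injective (IntermediateField.inclusion h)
    (IntermediateField.inclusion_injective h)).trans hd

theorem rat_le' {k Ω ι : Type} [Field k] [Field Ω] [Algebra k Ω] {C : IntermediateField k Ω}
    {y : ι → Ω} {s : Ω} (hs : s ≠ 0) (h : ∀ i, y i / s ∈ C) : rat k y ≤ C := by
  unfold rat
  rw [IntermediateField.adjoin_le_iff]
  rintro _ ⟨i, j, rfl⟩
  have h1 : y i / y j = (y i / s) / (y j / s) := (div_div_div_cancel_right₀ hs _ _).symm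
  rw [h1]
  exact div_mem (h i) (h j)

/-- **HYD** -/
theorem hyd : HydStmt := by
  classical
  intro k Ω _ _ _ n w c hc hsum
  by_cases hw : w = 0
  · have h0 : rat k w ≤ IntermediateField.adjoin k (∅ : Set Ω) := by
      unfold rat
      rw [IntermediateField.adjoin_le_iff]
      rintro _ ⟨i, j, rfl⟩
      rw [hw]
      change (0 : Ω) / 0 ∈ IntermediateField.adjoin k (∅ : Set Ω)
      rw [zero_div]
      exact zero_mem _
    unfold DimLe
    refine trdeg_mono' h0 (trdeg_adjoin_le' ∅ n ?_)
    rw [Cardinal.mk_eq_zero]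
    exact zero_le
  obtain ⟨i, hi⟩ : ∃ i, c i ≠ 0 := by
    by_contra h
    push Not at h
    exact hc (funext h)
  have hi' : algebraMap k Ω (c i) ≠ 0 := by
    rwa [Ne, map_eq_zero]
  obtain ⟨j, hji, hj⟩ : ∃ j, j ≠ i ∧ w j ≠ 0 := by
    by_contra h
    push Not at h
    have h1 : ∑ l, algebraMap k Ω (c l) * w l = algebraMap k Ω (c i) * w i := by
      refine Finset.sum_eq_single i (fun l _ hl => ?_) (fun h => absurd (Finset.mem_univ _) h)
      rw [h l hl, mul_zero]
    rw [h1] at hsum
    have h2 : w i = 0 := (mul_eq_zero.1 hsum).resolve_left hi'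
    apply hw
    funext l
    by_cases hl : l = i
    · rw [hl, h2]; rfl
    · exact h l hl
  have hcard : Fintype.card {l : Fin (n + 2) // l ≠ i ∧ l ≠ j} = n := by
    rw [Fintype.card_subtype]
    have h1 : (Finset.univ.filter fun l : Fin (n + 2) => l ≠ i ∧ l ≠ j) =
        (Finset.univ.erase i).erase j := by
      ext l
      simp [and_comm]
    rw [h1, Finset.card_erase_of_mem (by simp [hji]), Finset.card_erase_of_mem (by simp),
      Finset.card_univ, Fintype.card_fin]
    rfl
  obtain ⟨v, hv⟩ : ∃ v : {l : Fin (n + 2) // l ≠ i ∧ l ≠ j} → Ω, ∀ l, v l = w (l : Fin (n + 2)) / w j :=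
    ⟨fun l => w (l : Fin (n + 2)) / w j, fun _ => rfl⟩
  have hmem : ∀ l, l ≠ i → w l / w j ∈ IntermediateField.adjoin k (Set.range v) := by
    intro l hl
    by_cases hlj : l = j
    · rw [hlj, div_self hj]
      exact one_mem _
    · refine IntermediateField.subset_adjoin _ _ ⟨⟨l, hl, hlj⟩, ?_⟩
      rw [hv]
  have hrat : rat k w ≤ IntermediateField.adjoin k (Set.range v) := by
    refine rat_le' hj fun l => ?_
    by_cases hl : l = i
    · have h1 : algebraMap k Ω (c i) * (w i / w j) =
          - ∑ l ∈ Finset.univ.erase i, algebraMap k Ω (c l) * (w l / w j) := by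
        have h2 := Finset.add_sum_erase Finset.univ
          (fun l => algebraMap k Ω (c l) * (w l / w j)) (Finset.mem_univ i)
        have h3 : ∑ l, algebraMap k Ω (c l) * (w l / w j) = 0 := by
          have h4 : ∀ l, algebraMap k Ω (c l) * (w l / w j) =
              (algebraMap k Ω (c l) * w l) / w j := fun l => (mul_div_assoc _ _ _).symm
          rw [Finset.sum_congr rfl (fun l _ => h4 l), ← Finset.sum_div, hsum, zero_div]
        rw [h3] at h2
        exact eq_neg_of_add_eq_zero_left h2
      have h5 : w l / w j = algebraMap k Ω (c i)⁻¹ *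
          (- ∑ l ∈ Finset.univ.erase i, algebraMap k Ω (c l) * (w l / w j)) := by
        rw [← h1, hl, ← mul_assoc, ← map_mul, inv_mul_cancel₀ hi, map_one, one_mul]
      rw [h5]
      refine mul_mem (IntermediateField.algebraMap_mem _ _) (neg_mem (sum_mem fun l hl => ?_))
      exact mul_mem (IntermediateField.algebraMap_mem _ _) (hmem l (Finset.ne_of_mem_erase hl))
    · exact hmem l hl
  unfold DimLe
  refine trdeg_mono' hrat (trdeg_adjoin_le' _ n ?_)
  refine Cardinal.mk_range_le.trans ?_
  rw [Cardinal.mk_fintype, hcard]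

end Pool.Agent.SCT.H42
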