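import Pool.Agent.SCT.StmtsB

/-! # Squad SCT, row RNK: the rank of the pencil at a root. -/

set_option autoImplicit false

namespace Pool.Agent.SCT.H42

open MvPolynomial Pool.Agent.SCT

/-- Euler: the point is in its projective tangent space -/
theorem self_mem_ptan (k : Type) [Field k] {Ω ι : Type} [Field Ω] [Algebra k Ω] [Fintype ι]
    (y : ι → Ω) : y ∈ ptan k y := by
  intro g d hd hg
  have h := congrArg (aeval y) (hd.sum_X_mul_pderiv)
  rw [map_sum, map_nsmul, hg, smul_zero] at h
  rw [← h]
  unfold dd
  refine Finset.sum_congr rfl fun i _ => ?_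
  rw [map_mul, aeval_X]

theorem rnk (hP : PtnStmt) (hR : Rn1Stmt) : RnkStmt := by
  intro k _ _ n D hD w s a hli hdim
  obtain ⟨α, β, hαβ⟩ := hR k n D hD w s
  set p : Fin (n + 2) → Cl k n := pt k n w s with hp
  set w' : Fin (n + 2) → Cl k n := fun i => algebraMap (FT k n) (Cl k n) (w i) with hw'
  set T' : Fin (n + 2) → Cl k n := fun i => algebraMap (FT k n) (Cl k n) (gen k n i) with hT'
  have hinj : Function.Injective (algebraMap (FT k n) (Cl k n)) :=
    (algebraMap (FT k n) (Cl k n)).injective
  -- `p` is not zero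
  have hp0 : p ≠ 0 := by
    intro h0
    have hw0 : w ≠ 0 := by
      have := hli.ne_zero 1
      simpa using this
    obtain ⟨j, hj⟩ := Function.ne_iff.mp hw0
    have h1 : ∀ i, T' i = - s * w' i := by
      intro i
      have : T' i + s * w' i = 0 := congrFun h0 i
      linear_combination this
    have h2 : ∀ i, gen k n i * w j = gen k n j * w i := by
      intro i
      apply hinj
      rw [map_mul, map_mul]
      change T' i * w' j = T' j * w' i
      rw [h1 i, h1 j]
      ring
    rw [LinearIndependent.pair_iff] at hli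
    have h3 := hli (w j) (-(gen k n j)) (by
      funext i
      simp only [Pi.add_apply, Pi.smul_apply, smul_eq_mul, Pi.zero_apply]
      linear_combination h2 i)
    exact hj h3.1
  -- dimension of `P`
  have hPd := hP k (Cl k n) (Fin (n + 2)) p a hp0 hdim
  -- the generators
  let G : Option (Fin (n + 2)) → (Fin (n + 2) → Cl k n) := fun o => o.elim w' (vec k n D w s)
  let γ : Option (Fin (n + 2)) → Cl k n := fun o => o.elim β α
  have hG : ∀ g : MvPolynomial (Fin (n + 2)) k, aeval p g = 0 → ∃ h : Cl k n,
      ∀ o, dd g p (G o) = γ o * h := by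
    intro g hg
    obtain ⟨h, h1, h2⟩ := hαβ g hg
    refine ⟨h, fun o => ?_⟩
    cases o with
    | none => exact h2
    | some j => exact h1 j
  -- one more vector
  have hu : ∃ u₀ : Fin (n + 2) → Cl k n, ∀ o, G o ∈ ptan k p ⊔ Submodule.span (Cl k n) {u₀} := by
    by_cases hγ : ∀ o, γ o = 0
    · refine ⟨0, fun o => Submodule.mem_sup_left ?_⟩
      intro g d _ hg
      obtain ⟨h, h1⟩ := hG g hg
      rw [h1 o, hγ o, zero_mul]
    · push Not at hγ
      obtain ⟨o₀, ho₀⟩ := hγ
      refine ⟨G o₀, fun o => ?_⟩
      have hmem : G o - (γ o / γ o₀) • G o₀ ∈ ptan k p := by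
        intro g d _ hg
        obtain ⟨h, h1⟩ := hG g hg
        have e1 : dd g p (G o - (γ o / γ o₀) • G o₀) =
            dd g p (G o) - (γ o / γ o₀) * dd g p (G o₀) := by
          simp only [dd, Pi.sub_apply, Pi.smul_apply, smul_eq_mul, sub_mul,
            Finset.sum_sub_distrib, Finset.mul_sum, mul_assoc]
        rw [e1, h1 o, h1 o₀]
        field_simp
        ring
      have e2 : G o = (G o - (γ o / γ o₀) • G o₀) + (γ o / γ o₀) • G o₀ := by
        rw [sub_add_cancel]
      rw [e2]
      exact Submodule.add_mem_sup hmem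
        (Submodule.smul_mem _ _ (Submodule.mem_span_singleton_self _))
  obtain ⟨u₀, hu₀⟩ := hu
  have hle : Submodule.span (Cl k n) (Set.range (vec k n D w s) ∪ {T', w'}) ≤
      ptan k p ⊔ Submodule.span (Cl k n) {u₀} := by
    rw [Submodule.span_le]
    rintro x (⟨j, rfl⟩ | hx)
    · exact hu₀ (some j)
    · rcases hx with rfl | hx
      · have e3 : T' = p - s • w' := by
          funext i
          change T' i = (T' i + s * w' i) - s * w' i
          ring
        rw [e3]
        exact sub_mem (Submodule.mem_sup_left (self_mem_ptan k p))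
          (Submodule.smul_mem _ _ (hu₀ none))
      · rw [Set.mem_singleton_iff] at hx
        rw [hx]
        exact hu₀ none
  calc Module.finrank (Cl k n) (Submodule.span (Cl k n) (Set.range (vec k n D w s) ∪ {T', w'}))
      ≤ Module.finrank (Cl k n) (ptan k p ⊔ Submodule.span (Cl k n) {u₀} :
          Submodule (Cl k n) (Fin (n + 2) → Cl k n)) := Submodule.finrank_mono hle
    _ ≤ Module.finrank (Cl k n) (ptan k p) +
          Module.finrank (Cl k n) (Submodule.span (Cl k n) {u₀}) :=
        Submodule.finrank_add_le_finrank_add_finrank _ _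
    _ ≤ (a + 1) + 1 := by
        apply Nat.add_le_add hPd
        have := finrank_span_le_card (R := Cl k n) ({u₀} : Set (Fin (n + 2) → Cl k n))
        simpa using this
    _ = a + 2 := rfl

end Pool.Agent.SCT.H42
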